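import Pool.Agent.W580.SH.StmA

/-! Project SH (MP_ba6ea3_co), part A: S_AB5 (the deviation from the pattern is 0 or ±1). -/

namespace Pool.Agent.W239.SHA.AB5

open Finset Pool.Agent.W580.SH

/-- column subtraction in the last column -/
theorem sub_col {R : Type} (κ : Fin 5 → R) (s : R) (q : Fin 5 → (R → ℝ)) (x : R → ℝ) :
    mn (Fin.append κ (fun _ : Fin 1 => s)) (Fin.append q (fun _ : Fin 1 => x - q 0)) =
      mn (Fin.append κ (fun _ : Fin 1 => s)) (Fin.append q (fun _ : Fin 1 => x)) := by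
  unfold mn
  have h50 : (5 : Fin (5 + 1)) ≠ 0 := by decide
  rw [← Matrix.det_updateCol_add_smul_self
    (Matrix.of fun a b => (Fin.append q (fun _ : Fin 1 => x)) b
      ((Fin.append κ (fun _ : Fin 1 => s)) a)) h50 (-1 : ℝ)]
  congr 1
  ext a b
  rw [Matrix.updateCol_apply]
  refine Fin.addCases (m := 5) (n := 1) (fun b => ?_) (fun b => ?_) b
  · have hb : (Fin.castAdd 1 b : Fin (5 + 1)) ≠ 5 := by
      intro h
      have := congrArg Fin.val h
      simp at this
      have hb2 := b.2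
      omega
    rw [if_neg hb]
    simp only [Matrix.of_apply, Fin.append_left]
  · have hb : (Fin.natAdd 5 b : Fin (5 + 1)) = 5 := by
      fin_cases b; rfl
    rw [if_pos hb]
    have h5 : (Fin.append q (fun _ : Fin 1 => x)) (5 : Fin (5 + 1)) = x := by
      have : (5 : Fin (5 + 1)) = Fin.natAdd 5 0 := rfl
      rw [this, Fin.append_right]
    have h0 : (Fin.append q (fun _ : Fin 1 => x)) (0 : Fin (5 + 1)) = q 0 := by
      have : (0 : Fin (5 + 1)) = Fin.castAdd 1 0 := rfl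
      rw [this, Fin.append_left]
    simp only [Matrix.of_apply, Fin.append_right, h5, h0, Pi.sub_apply, smul_eq_mul]
    ring

theorem dev_le (hB : S_BLK) {R : Type} {S : Set (R → ℝ)} (hTS : TS1 S) (κ : Fin 5 → R)
    (q : Fin 5 → (R → ℝ)) (hq : ∀ j, q j ∈ S) (hdet : |mn κ q| = 1) (x : R → ℝ) (hx : x ∈ S)
    (hκ : ∀ b, x (κ b) = q 0 (κ b)) (s : R) : |x s - q 0 s| ≤ 1 := by
  have h1 := hB R 5 1 κ (fun _ => s) q (fun _ => x - q 0) (by
    intro b a
    simp [hκ a])
  rw [sub_col] at h1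
  have h2 : mn (fun _ : Fin 1 => s) (fun _ : Fin 1 => x - q 0) = x s - q 0 s := by
    unfold mn
    rw [Matrix.det_fin_one]
    simp
  rw [h2] at h1
  have h3 := hTS (5 + 1) (Fin.append κ (fun _ : Fin 1 => s)) (Fin.append q (fun _ : Fin 1 => x)) (by
    intro j
    refine Fin.addCases (m := 5) (n := 1) (fun b => ?_) (fun b => ?_) j
    · rw [Fin.append_left]; exact hq b
    · rw [Fin.append_right]; exact hx)
  rw [h1, abs_mul, hdet, one_mul] at h3
  exact h3

theorem ex_q (hL : S_LIN) (h1 : S_AB1) {R : Type} {S : Set (R → ℝ)} {t : R → ℝ}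
    {f : Fin 2 → (R → ℝ)} {v : Fin 3 → (R → ℝ)} {κ : Fin 5 → R} (hC : Ctx S t f v κ)
    (a : Fin 2) (σ : ℝ) (hσ : σ = 1 ∨ σ = -1) (k : Fin 3) (τ : ℝ) (hτ : τ = 1 ∨ τ = -1) :
    ∃ q : Fin 5 → (R → ℝ), q 0 = σ • f a + τ • v k ∧ (∀ j, q j ∈ S) ∧ |mn κ q| = 1 := by
  have hA := h1 R S t f v κ hC
  have hτa : |τ| = 1 := by rcases hτ with h | h <;> simp [h]
  have hmem : ∀ (a : Fin 2) (k : Fin 3), f a + v k ∈ S ∧ f a - v k ∈ S := by
    intro a k
    constructor
    · have := hC.qs a k 1 1 (Or.inl rfl) (Or.inl rfl)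
      simpa using this
    · have := hC.qs a k 1 (-1) (Or.inl rfl) (Or.inr rfl)
      simpa [sub_eq_add_neg] using this
  have hp : σ • f a + τ • v k ∈ S := hC.qs a k σ τ hσ hτ
  have hgen : ∀ (a a' : Fin 2) (k i j : Fin 3) (U : Matrix (Fin 5) (Fin 5) ℝ),
      σ • f a + τ • v k ∈ S →
      (fun b => ∑ c, U c b • fv f v c) =
        ![σ • f a + τ • v k, f a + v i, f a - v i, f a' + v j, f a' - v j] → |U.det| = 4 →
      ∃ q : Fin 5 → (R → ℝ), q 0 = σ • f a + τ • v k ∧ (∀ j, q j ∈ S) ∧ |mn κ q| = 1 := by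
    intro a a' k i j U hp hU hd
    refine ⟨![σ • f a + τ • v k, f a + v i, f a - v i, f a' + v j, f a' - v j], rfl, ?_, ?_⟩
    · intro l
      fin_cases l
      · exact hp
      · exact (hmem a i).1
      · exact (hmem a i).2
      · exact (hmem a' j).1
      · exact (hmem a' j).2
    · rw [← hU, hL R 5 κ (fv f v) U, abs_mul, hA, hd]
      norm_num
  have habs : ∀ d : ℝ, (d = 4 * τ ∨ d = -(4 * τ)) → |d| = 4 := by
    intro d hd
    rcases hd with h | h <;> rw [h] <;> simp [abs_mul, hτa]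
  fin_cases a <;> fin_cases k
  · refine hgen 0 1 0 1 2 !![σ, 1, 1, 0, 0; 0, 0, 0, 1, 1; τ, 0, 0, 0, 0; 0, 1, -1, 0, 0; 0, 0, 0, 1, -1] hp ?_ ?_
    · funext b
      fin_cases b <;> simp [fv, Fin.sum_univ_succ, sub_eq_add_neg]
    · exact habs _ (by
        first
          | (left; simp [Matrix.det_succ_row_zero, Fin.sum_univ_succ, Fin.succAbove]; ring_nf; done)
          | (left; simp [Matrix.det_succ_row_zero, Fin.sum_univ_succ, Fin.succAbove]; done)
          | (right; simp [Matrix.det_succ_row_zero, Fin.sum_univ_succ, Fin.succAbove]; ring_nf; done)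
          | (right; simp [Matrix.det_succ_row_zero, Fin.sum_univ_succ, Fin.succAbove]; done))
  · refine hgen 0 1 1 2 0 !![σ, 1, 1, 0, 0; 0, 0, 0, 1, 1; 0, 0, 0, 1, -1; τ, 0, 0, 0, 0; 0, 1, -1, 0, 0] hp ?_ ?_
    · funext b
      fin_cases b <;> simp [fv, Fin.sum_univ_succ, sub_eq_add_neg]
    · exact habs _ (by
        first
          | (left; simp [Matrix.det_succ_row_zero, Fin.sum_univ_succ, Fin.succAbove]; ring_nf; done)
          | (left; simp [Matrix.det_succ_row_zero, Fin.sum_univ_succ, Fin.succAbove]; done)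
          | (right; simp [Matrix.det_succ_row_zero, Fin.sum_univ_succ, Fin.succAbove]; ring_nf; done)
          | (right; simp [Matrix.det_succ_row_zero, Fin.sum_univ_succ, Fin.succAbove]; done))
  · refine hgen 0 1 2 0 1 !![σ, 1, 1, 0, 0; 0, 0, 0, 1, 1; 0, 1, -1, 0, 0; 0, 0, 0, 1, -1; τ, 0, 0, 0, 0] hp ?_ ?_
    · funext b
      fin_cases b <;> simp [fv, Fin.sum_univ_succ, sub_eq_add_neg]
    · exact habs _ (by
        first
          | (left; simp [Matrix.det_succ_row_zero, Fin.sum_univ_succ, Fin.succAbove]; ring_nf; done)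
          | (left; simp [Matrix.det_succ_row_zero, Fin.sum_univ_succ, Fin.succAbove]; done)
          | (right; simp [Matrix.det_succ_row_zero, Fin.sum_univ_succ, Fin.succAbove]; ring_nf; done)
          | (right; simp [Matrix.det_succ_row_zero, Fin.sum_univ_succ, Fin.succAbove]; done))
  · refine hgen 1 0 0 1 2 !![0, 0, 0, 1, 1; σ, 1, 1, 0, 0; τ, 0, 0, 0, 0; 0, 1, -1, 0, 0; 0, 0, 0, 1, -1] hp ?_ ?_
    · funext b
      fin_cases b <;> simp [fv, Fin.sum_univ_succ, sub_eq_add_neg]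
    · exact habs _ (by
        first
          | (left; simp [Matrix.det_succ_row_zero, Fin.sum_univ_succ, Fin.succAbove]; ring_nf; done)
          | (left; simp [Matrix.det_succ_row_zero, Fin.sum_univ_succ, Fin.succAbove]; done)
          | (right; simp [Matrix.det_succ_row_zero, Fin.sum_univ_succ, Fin.succAbove]; ring_nf; done)
          | (right; simp [Matrix.det_succ_row_zero, Fin.sum_univ_succ, Fin.succAbove]; done))
  · refine hgen 1 0 1 2 0 !![0, 0, 0, 1, 1; σ, 1, 1, 0, 0; 0, 0, 0, 1, -1; τ, 0, 0, 0, 0; 0, 1, -1, 0, 0] hp ?_ ?_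
    · funext b
      fin_cases b <;> simp [fv, Fin.sum_univ_succ, sub_eq_add_neg]
    · exact habs _ (by
        first
          | (left; simp [Matrix.det_succ_row_zero, Fin.sum_univ_succ, Fin.succAbove]; ring_nf; done)
          | (left; simp [Matrix.det_succ_row_zero, Fin.sum_univ_succ, Fin.succAbove]; done)
          | (right; simp [Matrix.det_succ_row_zero, Fin.sum_univ_succ, Fin.succAbove]; ring_nf; done)
          | (right; simp [Matrix.det_succ_row_zero, Fin.sum_univ_succ, Fin.succAbove]; done))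
  · refine hgen 1 0 2 0 1 !![0, 0, 0, 1, 1; σ, 1, 1, 0, 0; 0, 1, -1, 0, 0; 0, 0, 0, 1, -1; τ, 0, 0, 0, 0] hp ?_ ?_
    · funext b
      fin_cases b <;> simp [fv, Fin.sum_univ_succ, sub_eq_add_neg]
    · exact habs _ (by
        first
          | (left; simp [Matrix.det_succ_row_zero, Fin.sum_univ_succ, Fin.succAbove]; ring_nf; done)
          | (left; simp [Matrix.det_succ_row_zero, Fin.sum_univ_succ, Fin.succAbove]; done)
          | (right; simp [Matrix.det_succ_row_zero, Fin.sum_univ_succ, Fin.succAbove]; ring_nf; done)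
          | (right; simp [Matrix.det_succ_row_zero, Fin.sum_univ_succ, Fin.succAbove]; done))

theorem main (hL : S_LIN) (hB : S_BLK) (h1 : S_AB1) : S_AB5 := by
  intro R S t f v κ hC x hx a σ k τ hP s
  obtain ⟨hσ, hτ, hxp⟩ := hP
  have hσ' : (σ : ℝ) = 1 ∨ (σ : ℝ) = -1 := by
    rcases hσ with h | h
    · left; rw [h]; norm_num
    · right; rw [h]; norm_num
  have hτ' : (τ : ℝ) = 1 ∨ (τ : ℝ) = -1 := by
    rcases hτ with h | h
    · left; rw [h]; norm_num
    · right; rw [h]; norm_num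
  obtain ⟨q, hq0, hq, hdet⟩ := ex_q hL h1 hC a σ hσ' k τ hτ'
  have hle := dev_le hB hC.ts κ q hq hdet x hx (by intro b; rw [hq0]; exact hxp b) s
  rw [hq0] at hle
  have hp : ((σ : ℝ) • f a + (τ : ℝ) • v k) ∈ S := hC.qs a k σ τ hσ' hτ'
  obtain ⟨n1, hn1⟩ := hC.co.2 x hx s
  obtain ⟨n2, hn2⟩ := hC.co.2 _ hp s
  refine ⟨n1 - n2, ?_, ?_⟩
  · have : ((|n1 - n2| : ℤ) : ℝ) ≤ 1 := by
      rw [hn1, hn2] at hle
      push_cast
      have h2 : t s + (n1 : ℝ) - (t s + (n2 : ℝ)) = (n1 : ℝ) - n2 := by ring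
      rw [h2] at hle
      exact hle
    exact_mod_cast this
  · rw [hn1, hn2]
    push_cast
    ring

end Pool.Agent.W239.SHA.AB5
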